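import Pool.Agent.Lib_helper84.TU.Defs
import Pool.Agent.Lib_helper41.LVBF.AFE
import Pool.Agent.Lib_helper31.LGF.GA
import Pool.Agent.Lib_helper68.GL2.TW

/-! T12, part III: the symmetry of the twisted sums. -/

set_option autoImplicit false

namespace Pool.Agent.TU

open Pool.Agent.LEV Pool.Agent.LVB
open Pool.Agent.LK (PQ V)
open Pool.Agent.LE (xv)
open Pool.Agent.LX (Yy Aa nu dl)
open Pool.Agent.LSP (MX)
open Complex MeasureTheory Filter Topology ProbabilityTheory

/-- one step of the chain of weights -/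
theorem v_diff (i : ℕ) {y y' : ℝ} (hy : 0 < y) (h : y ≤ y') :
    V (i + 1) y - V (i + 1) y' = ∫ t in y..y', V i t / t := by
  obtain ⟨C, hC, h1⟩ := Pool.Agent.LG.ga_all i
  have h2 := Pool.Agent.LG.ga_split hC h1 hy h
  rw [intervalIntegral.integral_of_le h]
  show (∫ t in Set.Ioi y, V i t / t) - (∫ t in Set.Ioi y', V i t / t) = _
  rw [h2]
  ring

theorem sy_Vcont (i : ℕ) : ContinuousOn (V i) (Set.Ioi 0) := by
  obtain ⟨C, hC, h1⟩ := Pool.Agent.LG.ga_all i
  exact Pool.Agent.LG.ga_cont hC h1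

theorem sy_Vnn (i : ℕ) {t : ℝ} (ht : 0 < t) : 0 ≤ V i t := by
  obtain ⟨C, hC, h1⟩ := Pool.Agent.LG.ga_all i
  exact (h1.1 t ht).1

theorem sy_Vbd (i : ℕ) {m : ℝ} (hm : 0 < m) : ∃ D : ℝ, 0 ≤ D ∧ ∀ t : ℝ, m ≤ t →
    |V i t| ≤ D * Real.exp (-(t / 2)) := by
  obtain ⟨C, hC, h1⟩ := Pool.Agent.LG.ga_all i
  set m' : ℝ := min m 1 with hm'
  have hm0 : 0 < m' := lt_min hm one_pos
  refine ⟨2 * (C * i.factorial * Real.exp 2 / m' ^ 2), by positivity, fun t ht => ?_⟩
  have ht0 : 0 < t := hm.trans_le ht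
  have h2 := Pool.Agent.LG.ga_pt hC h1 hm0 (min_le_right _ _) ((min_le_left _ _).trans ht)
  rw [abs_of_nonneg (sy_Vnn i ht0)]
  rw [div_le_iff₀ ht0] at h2
  set B := C * i.factorial * Real.exp 2 / m' ^ 2 with hB
  have hB0 : 0 ≤ B := by positivity
  have h3 : t ≤ 2 * Real.exp (t / 2) := by
    have := Real.add_one_le_exp (t / 2)
    linarith
  have h4 : Real.exp (-t) * t ≤ 2 * Real.exp (-(t / 2)) := by
    have h5 : Real.exp (-(t / 2)) = Real.exp (-t) * Real.exp (t / 2) := by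
      rw [← Real.exp_add]
      congr 1
      ring
    rw [h5]
    have := Real.exp_pos (-t)
    nlinarith
  calc V i t ≤ B * Real.exp (-t) * t := h2
    _ = B * (Real.exp (-t) * t) := by ring
    _ ≤ B * (2 * Real.exp (-(t / 2))) := mul_le_mul_of_nonneg_left h4 hB0
    _ = _ := by ring

theorem sy_Vderiv (i : ℕ) {y : ℝ} (hy : 0 < y) : HasDerivAt (V (i + 1)) (-(V i y / y)) y := by
  have hc : ContinuousOn (fun t => V i t / t) (Set.Ioi 0) :=
    (sy_Vcont i).div continuousOn_id (fun t ht => ne_of_gt ht)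
  have hy2 : 0 < y / 2 := by linarith
  have hint : IntervalIntegrable (fun t => V i t / t) volume (y / 2) y := by
    apply ContinuousOn.intervalIntegrable
    refine hc.mono ?_
    intro t ht
    rw [Set.uIcc_of_le (by linarith)] at ht
    exact hy2.trans_le ht.1
  have hca : ContinuousAt (fun t => V i t / t) y := hc.continuousAt (Ioi_mem_nhds hy)
  have hsm : StronglyMeasurableAtFilter (fun t => V i t / t) (𝓝 y) volume :=
    hc.stronglyMeasurableAtFilter isOpen_Ioi y hy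
  have h1 := intervalIntegral.integral_hasDerivAt_right hint hsm hca
  have h2 : HasDerivAt (fun u => V (i + 1) (y / 2) - ∫ t in (y / 2)..u, V i t / t)
      (-(V i y / y)) y := by
    simpa using h1.const_sub (V (i + 1) (y / 2))
  refine h2.congr_of_eventuallyEq ?_
  filter_upwards [Ioi_mem_nhds (show y / 2 < y by linarith)] with u hu
  have hu' : y / 2 < u := hu
  rw [← v_diff i hy2 hu'.le]
  ring

/-- the sum of the weights against the sequence `a` -/
noncomputable def syP (a : ℕ → ℝ) (Y : ℝ) (i : ℕ) (x : ℝ) : ℝ :=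
  ∑' n : ℕ, a n * V i (n / Y * Real.exp x)

section seq

variable {a : ℕ → ℝ} {A Y : ℝ}

theorem sy_term (ha0 : a 0 = 0) (ha : ∀ n, |a n| ≤ A) (hY : 0 < Y) (i : ℕ) (x₀ : ℝ) :
    ∃ u : ℕ → ℝ, Summable u ∧ ∀ n : ℕ, ∀ x : ℝ, x₀ ≤ x → |a n * V i (n / Y * Real.exp x)| ≤ u n := by
  have hA : 0 ≤ A := (abs_nonneg _).trans (ha 0)
  have he : 0 < Real.exp x₀ := Real.exp_pos _
  obtain ⟨D, hD, hV⟩ := sy_Vbd i (m := 1 / Y * Real.exp x₀) (by positivity)
  refine ⟨fun n => A * D * Real.exp (-(1 / Y * Real.exp x₀ / 2)) ^ n, ?_, ?_⟩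
  · apply Summable.mul_left
    apply summable_geometric_of_lt_one (Real.exp_pos _).le
    rw [Real.exp_lt_one_iff]
    have : 0 < 1 / Y * Real.exp x₀ := by positivity
    linarith
  · intro n x hx
    rcases Nat.eq_zero_or_pos n with rfl | hn
    · rw [ha0, zero_mul, abs_zero]
      positivity
    · have hn1 : (1 : ℝ) ≤ n := by exact_mod_cast hn
      have hex : Real.exp x₀ ≤ Real.exp x := Real.exp_le_exp.2 hx
      have h1 : n * (1 / Y * Real.exp x₀) ≤ n / Y * Real.exp x := by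
        have : (n : ℝ) * (1 / Y * Real.exp x₀) = n / Y * Real.exp x₀ := by ring
        rw [this]
        exact mul_le_mul_of_nonneg_left hex (by positivity)
      have h2 : 1 / Y * Real.exp x₀ ≤ n / Y * Real.exp x := by
        refine le_trans ?_ h1
        exact le_mul_of_one_le_left (by positivity) hn1
      show _ ≤ A * D * Real.exp (-(1 / Y * Real.exp x₀ / 2)) ^ n
      rw [abs_mul, mul_assoc]
      refine mul_le_mul (ha n) ((hV _ h2).trans ?_) (abs_nonneg _) hA
      refine mul_le_mul_of_nonneg_left ?_ hD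
      rw [← Real.exp_nat_mul, Real.exp_le_exp]
      linarith

theorem sy_summ (ha0 : a 0 = 0) (ha : ∀ n, |a n| ≤ A) (hY : 0 < Y) (i : ℕ) (x : ℝ) :
    Summable (fun n : ℕ => a n * V i (n / Y * Real.exp x)) := by
  obtain ⟨u, hu, h⟩ := sy_term ha0 ha hY i x
  exact Summable.of_norm_bounded hu (fun n => h n x le_rfl)

theorem sy_deriv (ha0 : a 0 = 0) (ha : ∀ n, |a n| ≤ A) (hY : 0 < Y) (i : ℕ) (x : ℝ) :
    HasDerivAt (syP a Y (i + 1)) (-(syP a Y i x)) x := by
  obtain ⟨u, hu, h⟩ := sy_term ha0 ha hY i (x - 1)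
  have h1 := hasDerivAt_tsum_of_isPreconnected (𝕜 := ℝ) (F := ℝ) hu (isOpen_Ioi (a := x - 1))
    isPreconnected_Ioi
    (g := fun n x => a n * V (i + 1) (n / Y * Real.exp x))
    (g' := fun n x => -(a n * V i (n / Y * Real.exp x))) (y₀ := x) (y := x) ?_ ?_ (by simp)
    (sy_summ ha0 ha hY (i + 1) x) (by simp)
  · rw [tsum_neg] at h1
    exact h1
  · intro n y _
    rcases Nat.eq_zero_or_pos n with rfl | hn
    · simp only [ha0, zero_mul, neg_zero]
      exact hasDerivAt_const _ _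
    · have hn0 : (0 : ℝ) < n := by exact_mod_cast hn
      have hpos : 0 < n / Y * Real.exp y := by positivity
      have h2 := sy_Vderiv i hpos
      have h3 : HasDerivAt (fun y : ℝ => n / Y * Real.exp y) (n / Y * Real.exp y) y :=
        (Real.hasDerivAt_exp y).const_mul _
      have h4 := (h2.comp y h3).const_mul (a n)
      have h5 : a n * (-(V i (n / Y * Real.exp y) / (n / Y * Real.exp y)) *
          (n / Y * Real.exp y)) = -(a n * V i (n / Y * Real.exp y)) := by
        field_simp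
      rw [h5] at h4
      exact h4
  · intro n y hy
    rw [norm_neg]
    exact h n y (le_of_lt hy)

theorem sy_cont (ha0 : a 0 = 0) (ha : ∀ n, |a n| ≤ A) (hY : 0 < Y) (i : ℕ) :
    Continuous (syP a Y i) := by
  rw [continuous_iff_continuousAt]
  intro x
  obtain ⟨u, hu, h⟩ := sy_term ha0 ha hY i (x - 1)
  have h1 : ContinuousOn (fun x => ∑' n : ℕ, a n * V i (n / Y * Real.exp x)) (Set.Ioi (x - 1)) := by
    refine continuousOn_tsum (fun n => ?_) hu (fun n y hy => h n y (le_of_lt hy))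
    rcases Nat.eq_zero_or_pos n with rfl | hn
    · simp only [ha0, zero_mul]
      exact continuousOn_const
    · have hn0 : (0 : ℝ) < n := by exact_mod_cast hn
      refine continuousOn_const.mul ?_
      refine (sy_Vcont i).comp (by fun_prop) ?_
      intro y _
      show (0 : ℝ) < n / Y * Real.exp y
      positivity
  exact h1.continuousAt (Ioi_mem_nhds (by linarith))

/-- even functions -/
theorem sy_one (ha0 : a 0 = 0) (ha : ∀ n, |a n| ≤ A) (hY : 0 < Y)
    (h0 : ∀ x, syP a Y 0 x = syP a Y 0 (-x)) (x : ℝ) :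
    syP a Y 1 x + syP a Y 1 (-x) = 2 * syP a Y 1 0 := by
  have hd : ∀ x, HasDerivAt (fun x => syP a Y 1 x + syP a Y 1 (-x)) 0 x := by
    intro x
    have h1 := sy_deriv ha0 ha hY 0 x
    have h2 := (sy_deriv ha0 ha hY 0 (-x)).comp x (hasDerivAt_neg x)
    have h3 := h1.add h2
    have h4 : -(syP a Y 0 x) + -(syP a Y 0 (-x)) * -1 = 0 := by
      rw [← h0 x]
      ring
    rw [h4] at h3
    exact h3
  have hc := is_const_of_deriv_eq_zero (f := fun x => syP a Y 1 x + syP a Y 1 (-x))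
    (fun x => (hd x).differentiableAt) (fun x => (hd x).deriv) x 0
  simp only [neg_zero] at hc
  rw [hc]
  ring

theorem sy_two (ha0 : a 0 = 0) (ha : ∀ n, |a n| ≤ A) (hY : 0 < Y)
    (h0 : ∀ x, syP a Y 0 x + syP a Y 0 (-x) = 2 * syP a Y 0 0) (x : ℝ) :
    syP a Y 2 x + syP a Y 2 (-x) = 2 * syP a Y 2 0 + x ^ 2 * syP a Y 0 0 := by
  have hd1 : ∀ x, HasDerivAt (fun x => syP a Y 1 (-x) - syP a Y 1 x - 2 * syP a Y 0 0 * x) 0 x := by
    intro x
    have h1 := sy_deriv ha0 ha hY 0 x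
    have h2 := (sy_deriv ha0 ha hY 0 (-x)).comp x (hasDerivAt_neg x)
    have h3 := (h2.sub h1).sub ((hasDerivAt_id x).const_mul (2 * syP a Y 0 0))
    have h4 : -(syP a Y 0 (-x)) * -1 - -(syP a Y 0 x) - 2 * syP a Y 0 0 * 1 = 0 := by
      have := h0 x
      linarith
    rw [h4] at h3
    exact h3
  have hc1 : ∀ x, syP a Y 1 (-x) - syP a Y 1 x = 2 * syP a Y 0 0 * x := by
    intro x
    have hc := is_const_of_deriv_eq_zero
      (f := fun x => syP a Y 1 (-x) - syP a Y 1 x - 2 * syP a Y 0 0 * x)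
      (fun x => (hd1 x).differentiableAt) (fun x => (hd1 x).deriv) x 0
    simp only [neg_zero, mul_zero, sub_self] at hc
    linarith
  have hd2 : ∀ x, HasDerivAt (fun x => syP a Y 2 x + syP a Y 2 (-x) - x ^ 2 * syP a Y 0 0) 0 x := by
    intro x
    have h1 := sy_deriv ha0 ha hY 1 x
    have h2 := (sy_deriv ha0 ha hY 1 (-x)).comp x (hasDerivAt_neg x)
    have h3 := (h1.add h2).sub ((hasDerivAt_pow 2 x).mul_const (syP a Y 0 0))
    have h4 : -(syP a Y 1 x) + -(syP a Y 1 (-x)) * -1 -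
        ((2 : ℕ) : ℝ) * x ^ (2 - 1) * syP a Y 0 0 = 0 := by
      have := hc1 x
      norm_num
      linarith
    rw [h4] at h3
    exact h3
  have hc2 := is_const_of_deriv_eq_zero
    (f := fun x => syP a Y 2 x + syP a Y 2 (-x) - x ^ 2 * syP a Y 0 0)
    (fun x => (hd2 x).differentiableAt) (fun x => (hd2 x).deriv) x 0
  simp only [neg_zero] at hc2
  linarith

/-- the average over `v` -/
theorem sy_avg (ha0 : a 0 = 0) (ha : ∀ n, |a n| ≤ A) {m : ℕ} (hm : 1 ≤ m)
    (hY : Y = Real.sqrt m) (i : ℕ) :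
    HasSum (fun n : ℕ => a n * wi i m n)
      (∫ v : ℝ, mv v * syP a Y i ((1 / 2 - v) * Real.log m)) := by
  have hm0 : (0 : ℝ) < m := by exact_mod_cast hm
  have hm1 : (1 : ℝ) ≤ m := by exact_mod_cast hm
  have hY0 : 0 < Y := by rw [hY]; exact Real.sqrt_pos.2 hm0
  have hlog : 0 ≤ Real.log m := Real.log_nonneg hm1
  have key : ∀ (n : ℕ) (v : ℝ), (n : ℝ) * (m : ℝ) ^ (-v) =
      n / Y * Real.exp ((1 / 2 - v) * Real.log m) := by
    intro n v
    have e1 : Real.exp ((1 / 2 - v) * Real.log m) = (m : ℝ) ^ (1 / 2 - v) := by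
      rw [Real.rpow_def_of_pos hm0]
      congr 1
      ring
    rw [e1, hY, Real.sqrt_eq_rpow, div_mul_eq_mul_div, mul_div_assoc, ← Real.rpow_sub hm0]
    congr 2
    ring
  obtain ⟨u, hu, hb⟩ := sy_term ha0 ha hY0 i (-(1 / 20) * Real.log m)
  set F : ℕ → ℝ → ℝ := fun n v => mv v * (a n * V i (n / Y * Real.exp ((1 / 2 - v) * Real.log m)))
    with hF
  have hFc : ∀ n : ℕ, Continuous (fun v : ℝ =>
      a n * V i (n / Y * Real.exp ((1 / 2 - v) * Real.log m))) := by
    intro n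
    rcases Nat.eq_zero_or_pos n with rfl | hn
    · simp only [ha0, zero_mul]
      exact continuous_const
    · have hn0 : (0 : ℝ) < n := by exact_mod_cast hn
      refine continuous_const.mul ?_
      refine (sy_Vcont i).comp_continuous (by fun_prop) ?_
      intro v
      show (0 : ℝ) < n / Y * Real.exp _
      positivity
  have hFint : ∀ n, Integrable (F n) := fun n => AFE_int_mul (hFc n)
  have hFval : ∀ n, ∫ v, F n v = a n * wi i m n := by
    intro n
    unfold wi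
    rw [← integral_const_mul]
    refine integral_congr_ae (ae_of_all _ fun v => ?_)
    show mv v * (a n * V i (n / Y * Real.exp ((1 / 2 - v) * Real.log m))) =
      a n * (mv v * V i (n * (m : ℝ) ^ (-v)))
    rw [key]
    ring
  have hFnorm : Summable fun n => ∫ v, ‖F n v‖ := by
    refine Summable.of_nonneg_of_le (fun n => integral_nonneg fun v => norm_nonneg _)
      (fun n => ?_) hu
    calc ∫ v, ‖F n v‖ ≤ ∫ v, mv v * u n := by
          refine integral_mono (hFint n).norm (AFE_mv_int.mul_const _) ?_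
          intro v
          show ‖F n v‖ ≤ mv v * u n
          simp only [hF]
          by_cases h : mv v = 0
          · rw [h, zero_mul, zero_mul, norm_zero]
          · have h2 := abs_lt.mp (AFE_mv_supp h)
            rw [norm_mul, Real.norm_eq_abs, abs_of_nonneg (AFE_mv_nonneg v)]
            refine mul_le_mul_of_nonneg_left ?_ (AFE_mv_nonneg v)
            refine hb n _ ?_
            have : -(1 / 20) ≤ 1 / 2 - v := by linarith [h2.2]
            exact mul_le_mul_of_nonneg_right this hlog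
      _ = u n := by
          rw [integral_mul_const, AFE_mv_one, one_mul]
  have hmain := hasSum_integral_of_summable_integral_norm hFint hFnorm
  have htot : ∀ v, ∑' n, F n v = mv v * syP a Y i ((1 / 2 - v) * Real.log m) := by
    intro v
    simp only [hF]
    rw [tsum_mul_left]
    rfl
  simp only [htot, hFval] at hmain
  exact hmain

/-- the average of a function which is symmetric up to a square -/
theorem sy_avg2 (ha0 : a 0 = 0) (ha : ∀ n, |a n| ≤ A) {m : ℕ} (hm : 1 ≤ m)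
    (hY : Y = Real.sqrt m) (i : ℕ) {c d : ℝ}
    (h : ∀ x, syP a Y i x + syP a Y i (-x) = 2 * c + x ^ 2 * d) :
    ∑' n : ℕ, a n * wi i m n = c + (1 / 2 * ∫ v : ℝ, mv v * (1 / 2 - v) ^ 2) *
      Real.log m ^ 2 * d := by
  have hm0 : (0 : ℝ) < m := by exact_mod_cast hm
  have hY0 : 0 < Y := by rw [hY]; exact Real.sqrt_pos.2 hm0
  rw [(sy_avg ha0 ha hm hY i).tsum_eq]
  set g : ℝ → ℝ := fun v => syP a Y i ((1 / 2 - v) * Real.log m) with hg
  have hgc : Continuous g := (sy_cont ha0 ha hY0 i).comp (by fun_prop)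
  have hgc' : Continuous (fun v => g (1 - v)) := hgc.comp (by fun_prop)
  have e1 : ∫ v : ℝ, mv v * g v = ∫ v : ℝ, mv v * g (1 - v) := by
    rw [← integral_sub_left_eq_self (fun v : ℝ => mv v * g v) volume (1 : ℝ)]
    refine integral_congr_ae (ae_of_all _ fun v => ?_)
    show mv (1 - v) * g (1 - v) = _
    rw [AFE_mv_symm]
  have e2 : ∫ v : ℝ, (mv v * g v + mv v * g (1 - v)) =
      ∫ v : ℝ, (mv v * (2 * c) + mv v * (1 / 2 - v) ^ 2 * (Real.log m ^ 2 * d)) := by
    refine integral_congr_ae (ae_of_all _ fun v => ?_)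
    show mv v * g v + mv v * g (1 - v) =
      mv v * (2 * c) + mv v * (1 / 2 - v) ^ 2 * (Real.log m ^ 2 * d)
    have h1 := h ((1 / 2 - v) * Real.log m)
    have h2 : g (1 - v) = syP a Y i (-((1 / 2 - v) * Real.log m)) := by
      simp only [hg]
      congr 1
      ring
    rw [h2, ← mul_add]
    show mv v * (syP a Y i ((1 / 2 - v) * Real.log m) + _) = _
    rw [h1]
    ring
  rw [integral_add (AFE_int_mul hgc) (AFE_int_mul hgc'), ← e1,
    integral_add (AFE_mv_int.mul_const _) ((AFE_int_mul (by fun_prop)).mul_const _),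
    integral_mul_const, integral_mul_const, AFE_mv_one, one_mul] at e2
  show ∫ v : ℝ, mv v * g v = _
  linarith

end seq

/-- the variance of `mv`, halved -/
noncomputable def cv : ℝ := 1 / 2 * ∫ v : ℝ, mv v * (1 / 2 - v) ^ 2

theorem cv_bounds : 0 ≤ cv ∧ cv ≤ 1 := by
  unfold cv
  have h0 : 0 ≤ ∫ v : ℝ, mv v * (1 / 2 - v) ^ 2 :=
    integral_nonneg fun v => mul_nonneg (AFE_mv_nonneg v) (sq_nonneg _)
  have h1 : ∫ v : ℝ, mv v * (1 / 2 - v) ^ 2 ≤ ∫ v : ℝ, mv v * 1 := by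
    refine integral_mono (AFE_int_mul (by fun_prop)) (AFE_mv_int.mul_const _) ?_
    intro v
    show mv v * (1 / 2 - v) ^ 2 ≤ mv v * 1
    by_cases h : mv v = 0
    · rw [h, zero_mul, zero_mul]
    · have h2 := abs_lt.mp (AFE_mv_supp h)
      refine mul_le_mul_of_nonneg_left ?_ (AFE_mv_nonneg v)
      nlinarith [h2.1, h2.2]
  rw [integral_mul_const, AFE_mv_one, one_mul] at h1
  constructor
  · linarith
  · linarith

/-- splitting the integral over a vertical geodesic at `V` -/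
theorem sy_split {N : ℕ} [Fact N.Prime] {f : S2 N} (hf : IsNew f) (h1 : co f N = 1) {e j : ℕ}
    (he : 0 < e) (heN : e.Coprime N) (hj : e.Coprime j) {U : ℝ} (hU : 0 < U) :
    ∫ v in Set.Ioi (0 : ℝ), ev f ((j : ℝ) / e) v = (∫ v in Set.Ioi U, ev f ((j : ℝ) / e) v) +
      ∫ v in Set.Ioi (1 / (N * (e : ℝ) ^ 2 * U)), ev f ((GID_al N e j : ℝ) / e) v := by
  have hN : (0 : ℝ) < N := by exact_mod_cast (Fact.out : N.Prime).pos
  have heR : (0 : ℝ) < e := by exact_mod_cast he
  have hcop : (N * j).Coprime e := Nat.Coprime.mul_left heN.symm hj.symm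
  have hα := GID_al_ex (N := N) he hcop
  set κ : ℝ := N * (e : ℝ) ^ 2 with hκ_def
  have hκ : 0 < κ := by positivity
  have hun : Set.Ioc 0 U ∪ Set.Ioi U = Set.Ioi 0 := Set.Ioc_union_Ioi_eq_Ioi hU.le
  have hint := (geo_fold_pr hf h1 he heN).1 j hj
  rw [← hun, setIntegral_union (Set.Ioc_disjoint_Ioi le_rfl) measurableSet_Ioi
    (hint.mono_set (fun v hv => hv.1)) (GID_int f _ hU), integral_Ioc_eq_integral_Ioo, add_comm]
  congr 1
  have hc' : 0 < 1 / (κ * U) := by positivity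
  have hinj : Set.InjOn (fun u : ℝ => 1 / (κ * u)) (Set.Ioi (1 / (κ * U))) := GID_inj hκ hc'
  have hder : ∀ u ∈ Set.Ioi (1 / (κ * U)), HasDerivWithinAt (fun u : ℝ => 1 / (κ * u))
      (-(1 / (κ * u ^ 2))) (Set.Ioi (1 / (κ * U))) u := by
    intro u hu
    exact (GID_deriv hκ (hc'.trans hu)).hasDerivWithinAt
  have himg := AFE_image (c := U) (c' := 1 / (κ * U)) (κ := κ) hU hc' hκ (by field_simp)
  rw [← himg, integral_image_eq_integral_abs_deriv_smul measurableSet_Ioi hder hinj]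
  refine setIntegral_congr_fun measurableSet_Ioi ?_
  intro u hu
  have hu0 : 0 < u := hc'.trans hu
  show |(-(1 / (κ * u ^ 2)))| • ev f ((j : ℝ) / e) (1 / (κ * u)) = ev f ((GID_al N e j : ℝ) / e) u
  rw [GID_trans hf h1 he hα hu0, abs_neg, abs_of_pos (by positivity), Complex.real_smul]
  rw [hκ_def]
  push_cast
  rw [one_div]

variable {q : ℕ} [NeZero q]

theorem sy_chi_re {χ : DirichletCharacter ℂ q} (hχ : PQ χ) (b : ZMod q) :
    χ b = (((χ b).re : ℝ) : ℂ) := by
  by_cases hb : IsUnit b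
  · obtain ⟨u, rfl⟩ := hb
    have h1 : χ u ^ 2 = 1 := by
      have := congrArg (fun ψ : DirichletCharacter ℂ q => ψ (u : ZMod q)) hχ.sq
      simpa [MulChar.pow_apply_coe, MulChar.one_apply_coe] using this
    rw [pow_two] at h1
    rcases mul_self_eq_one_iff.1 h1 with h | h
    · rw [h]; simp
    · rw [h]; simp
  · rw [MulChar.map_nonunit _ hb]
    simp

theorem sy_chi_sq {χ : DirichletCharacter ℂ q} (hχ : PQ χ) (u : (ZMod q)ˣ) : χ u * χ u = 1 := by
  have := congrArg (fun ψ : DirichletCharacter ℂ q => ψ (u : ZMod q)) hχ.sq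
  simpa [pow_two, MulChar.mul_apply, MulChar.one_apply_coe] using this

theorem sy_chi_inv {χ : DirichletCharacter ℂ q} (hχ : PQ χ) : χ⁻¹ = χ := by
  have h := hχ.sq
  rw [pow_two] at h
  exact inv_eq_of_mul_eq_one_left h

/-- a sum over `ZMod q` against a character -/
theorem sy_units (χ : DirichletCharacter ℂ q) (g : ZMod q → ℂ) :
    ∑ u : (ZMod q)ˣ, χ u * g u = ∑ b : ZMod q, χ b * g b := by
  refine Fintype.sum_of_injective (fun u : (ZMod q)ˣ => (u : ZMod q)) Units.val_injective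
    _ _ ?_ (fun u => rfl)
  intro b hb
  have : ¬ IsUnit b := fun h => hb ⟨h.unit, h.unit_spec⟩
  rw [MulChar.map_nonunit _ this, zero_mul]

/-- the twisted tails -/
noncomputable def syA (χ : DirichletCharacter ℂ q) {N : ℕ} [Fact N.Prime] (f : S2 N) (U : ℝ) : ℂ :=
  ∑ u : (ZMod q)ˣ, χ u * ∫ v in Set.Ioi U, ev f (((u : ZMod q).val : ℝ) / q) v

theorem sy_gauss {N : ℕ} [Fact N.Prime] {f : S2 N} (hf : IsNew f)
    {χ : DirichletCharacter ℂ q} (hχ : PQ χ) {U : ℝ} (hU : 0 < U) :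
    HasSum (fun n : ℕ => gaussSum χ (ZMod.stdAddChar (N := q)) *
      ((an χ f n * Real.exp (-2 * Real.pi * n * U) : ℝ) : ℂ)) (2 * Real.pi * syA χ f U) := by
  have h1 : HasSum (fun n : ℕ => ∑ u : (ZMod q)ˣ, χ u *
      (co f n * (Real.exp (-2 * Real.pi * n * U) / (2 * Real.pi * n) : ℝ) *
      GEL_e n (((u : ZMod q).val : ℝ) / q))) (syA χ f U) :=
    hasSum_sum fun u _ => (GEL_int f _ hU).mul_left _
  have h2 := h1.mul_left (2 * (Real.pi : ℂ))
  have e : (fun n : ℕ => gaussSum χ (ZMod.stdAddChar (N := q)) *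
      ((an χ f n * Real.exp (-2 * Real.pi * n * U) : ℝ) : ℂ)) = fun n : ℕ =>
      2 * (Real.pi : ℂ) * ∑ u : (ZMod q)ˣ, χ u *
      (co f n * (Real.exp (-2 * Real.pi * n * U) / (2 * Real.pi * n) : ℝ) *
      GEL_e n (((u : ZMod q).val : ℝ) / q)) := by
    funext n
    rcases Nat.eq_zero_or_pos n with rfl | hn
    · have : an χ f 0 = 0 := by
        unfold an
        simp
      simp [this, co_zero]
    · have hn' : (0 : ℝ) < n := by exact_mod_cast hn
      have hpi := Real.pi_pos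
      have e1 : ∑ u : (ZMod q)ˣ, χ u *
          (co f n * (Real.exp (-2 * Real.pi * n * U) / (2 * Real.pi * n) : ℝ) *
          GEL_e n (((u : ZMod q).val : ℝ) / q)) =
          co f n * (Real.exp (-2 * Real.pi * n * U) / (2 * Real.pi * n) : ℝ) *
          (χ n * gaussSum χ (ZMod.stdAddChar (N := q))) := by
        have e2 := Pool.Agent.GL2.tw_gauss hχ.prim (n : ZMod q)
        rw [sy_chi_inv hχ] at e2
        rw [← e2, ← sy_units χ (fun b => ZMod.stdAddChar ((n : ZMod q) * b)), Finset.mul_sum]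
        refine Finset.sum_congr rfl fun u _ => ?_
        have e3 : GEL_e n (((u : ZMod q).val : ℝ) / q) =
            ZMod.stdAddChar ((n : ZMod q) * (u : ZMod q)) := by
          rw [Pool.Agent.GL2.tw_std]
          unfold GEL_e
          congr 1
          push_cast
          ring
        rw [e3]
        ring
      rw [e1, AFE_co hf n, sy_chi_re hχ (n : ZMod q)]
      unfold an
      have h3 : (la f n / Real.sqrt n) * Real.exp (-2 * Real.pi * n * U) =
          2 * Real.pi * (la f n / Real.sqrt n * n *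
            (Real.exp (-2 * Real.pi * n * U) / (2 * Real.pi * n))) := by
        field_simp
      have h4 : (χ (n : ZMod q)).re * (la f n / Real.sqrt n) * Real.exp (-2 * Real.pi * n * U) =
          2 * Real.pi * (la f n / Real.sqrt n * n *
            (Real.exp (-2 * Real.pi * n * U) / (2 * Real.pi * n))) * (χ (n : ZMod q)).re := by
        rw [← h3]
        ring
      rw [h4]
      push_cast
      ring
  rw [e]
  exact h2

/-- the functional equation of the twisted tails -/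
theorem sy_fe {N : ℕ} [Fact N.Prime] {f : S2 N} (hf : IsNew f) (h1 : co f N = 1)
    {χ : DirichletCharacter ℂ q} (hχ : PQ χ) (hq : q < N) {U : ℝ} (hU : 0 < U) :
    syA χ f U + χ (-(N : ZMod q)) * syA χ f (1 / (N * (q : ℝ) ^ 2 * U)) =
      ∑ u : (ZMod q)ˣ, χ u * ∫ v in Set.Ioi (0 : ℝ), ev f (((u : ZMod q).val : ℝ) / q) v := by
  have hq0 : 0 < q := Nat.pos_of_ne_zero (NeZero.ne q)
  have hqN : q.Coprime N := by
    rw [Nat.coprime_comm, Nat.Prime.coprime_iff_not_dvd Fact.out]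
    exact fun h => absurd (Nat.le_of_dvd hq0 h) (not_le.2 hq)
  set Nu : (ZMod q)ˣ := ZMod.unitOfCoprime N hqN.symm with hNu
  have hNuv : (Nu : ZMod q) = (N : ZMod q) := ZMod.coe_unitOfCoprime _ _
  let τ : (ZMod q)ˣ → (ZMod q)ˣ := fun u => -(Nu * u)⁻¹
  have hinv : Function.Involutive τ := by
    intro u
    show -(Nu * -(Nu * u)⁻¹)⁻¹ = u
    have e1 : Nu * -(Nu * u)⁻¹ = -(u⁻¹) := by
      rw [mul_neg, mul_inv, ← mul_assoc, mul_inv_cancel, one_mul]
    have e2 : (-(u⁻¹))⁻¹ = -u := by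
      apply inv_eq_of_mul_eq_one_right
      rw [neg_mul_neg, inv_mul_cancel]
    rw [e1, e2, neg_neg]
  have hval : ∀ u : (ZMod q)ˣ, GID_al N q (u : ZMod q).val = ((τ u : (ZMod q)ˣ) : ZMod q).val := by
    intro u
    unfold GID_al
    congr 1
    have e1 : ((N * (u : ZMod q).val : ℕ) : ZMod q) = ((Nu * u : (ZMod q)ˣ) : ZMod q) := by
      push_cast
      rw [ZMod.natCast_zmod_val, hNuv]
    rw [e1]
    show -(((Nu * u : (ZMod q)ˣ) : ZMod q))⁻¹ = ((-(Nu * u)⁻¹ : (ZMod q)ˣ) : ZMod q)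
    rw [Units.val_neg, ZMod.inv_coe_unit]
  have hchi : ∀ u : (ZMod q)ˣ, χ (u : ZMod q) =
      χ (-(N : ZMod q)) * χ ((τ u : (ZMod q)ˣ) : ZMod q) := by
    intro u
    have e1 : -(N : ZMod q) * (τ u : (ZMod q)ˣ) = ((u⁻¹ : (ZMod q)ˣ) : ZMod q) := by
      show -(N : ZMod q) * ((-(Nu * u)⁻¹ : (ZMod q)ˣ) : ZMod q) = _
      rw [← hNuv, Units.val_neg, neg_mul_neg, ← Units.val_mul]
      congr 1
      rw [mul_inv, ← mul_assoc, mul_inv_cancel, one_mul]
    rw [← map_mul, e1]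
    have e2 : χ ((u⁻¹ : (ZMod q)ˣ) : ZMod q) * χ (u : ZMod q) = 1 := by
      rw [← map_mul, ← Units.val_mul, inv_mul_cancel, Units.val_one, map_one]
    have e3 := sy_chi_sq hχ u
    have e4 : χ (u : ZMod q) ≠ 0 := by
      intro h0
      rw [h0, zero_mul] at e3
      exact zero_ne_one e3
    have e5 : χ ((u⁻¹ : (ZMod q)ˣ) : ZMod q) * χ (u : ZMod q) = χ (u : ZMod q) * χ (u : ZMod q) := by
      rw [e2, e3]
    exact (mul_right_cancel₀ e4 e5).symm
  have hsum : ∑ u : (ZMod q)ˣ, χ u * (∫ v in Set.Ioi (1 / (N * (q : ℝ) ^ 2 * U)),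
      ev f (((τ u : (ZMod q)ˣ) : ZMod q).val / q : ℝ) v) =
      χ (-(N : ZMod q)) * syA χ f (1 / (N * (q : ℝ) ^ 2 * U)) := by
    unfold syA
    rw [Finset.mul_sum]
    rw [← Equiv.sum_comp hinv.toPerm (fun u : (ZMod q)ˣ => χ (-(N : ZMod q)) * (χ u *
      ∫ v in Set.Ioi (1 / (N * (q : ℝ) ^ 2 * U)), ev f (((u : ZMod q).val : ℝ) / q) v))]
    refine Finset.sum_congr rfl fun u _ => ?_
    show _ = χ (-(N : ZMod q)) * (χ ((τ u : (ZMod q)ˣ) : ZMod q) * _)
    rw [← mul_assoc, ← hchi u]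
    rfl
  rw [← hsum]
  unfold syA
  rw [← Finset.sum_add_distrib]
  refine Finset.sum_congr rfl fun u _ => ?_
  have hcop : q.Coprime (u : ZMod q).val := by
    rw [Nat.coprime_comm]
    exact ZMod.val_coe_unit_coprime u
  rw [sy_split hf h1 hq0 hqN hcop hU, hval u, mul_add]

/-- the functional equation for the sum with the weight `V 0` -/
theorem sy_zero {N : ℕ} [Fact N.Prime] {f : S2 N} (hf : IsNew f) (h1 : co f N = 1)
    {χ : DirichletCharacter ℂ q} (hχ : PQ χ) (hq : q < N) (x : ℝ) :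
    ((syP (an χ f) (Yy q N) 0 x : ℝ) : ℂ) +
      χ (-(N : ZMod q)) * ((syP (an χ f) (Yy q N) 0 (-x) : ℝ) : ℂ) =
      (1 + χ (-(N : ZMod q))) * ((syP (an χ f) (Yy q N) 0 0 : ℝ) : ℂ) := by
  have hN : (0 : ℝ) < N := by exact_mod_cast (Fact.out : N.Prime).pos
  have hq0 : (0 : ℝ) < q := by exact_mod_cast Nat.pos_of_ne_zero (NeZero.ne q)
  have hsN : 0 < Real.sqrt N := Real.sqrt_pos.2 hN
  set Y := Yy q N with hY
  have hY0 : 0 < Y := by rw [hY]; unfold Yy; positivity
  have hYY : Y * Y = N * (q : ℝ) ^ 2 := by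
    rw [hY]
    unfold Yy
    have := Real.mul_self_sqrt hN.le
    calc (q : ℝ) * Real.sqrt N * (q * Real.sqrt N) = q ^ 2 * (Real.sqrt N * Real.sqrt N) := by ring
      _ = _ := by rw [this]; ring
  set G := gaussSum χ (ZMod.stdAddChar (N := q)) with hG
  have hG0 : G ≠ 0 := Pool.Agent.GL2.tw_gauss_ne hχ.prim
  have key : ∀ t : ℝ, G * ((syP (an χ f) Y 0 t : ℝ) : ℂ) =
      2 * Real.pi * syA χ f (1 / Y * Real.exp t) := by
    intro t
    have h2 := (sy_gauss hf hχ (U := 1 / Y * Real.exp t) (by positivity)).tsum_eq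
    rw [← h2, tsum_mul_left, ← Complex.ofReal_tsum]
    congr 2
    unfold syP
    refine tsum_congr fun n => ?_
    show an χ f n * Real.exp (-(2 * Real.pi * (n / Y * Real.exp t))) = _
    congr 2
    ring
  have hfe : ∀ t : ℝ, syA χ f (1 / Y * Real.exp t) +
      χ (-(N : ZMod q)) * syA χ f (1 / Y * Real.exp (-t)) =
      ∑ u : (ZMod q)ˣ, χ u * ∫ v in Set.Ioi (0 : ℝ), ev f (((u : ZMod q).val : ℝ) / q) v := by
    intro t
    have h2 := sy_fe hf h1 hχ hq (U := 1 / Y * Real.exp t) (by positivity)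
    have h3 : 1 / (N * (q : ℝ) ^ 2 * (1 / Y * Real.exp t)) = 1 / Y * Real.exp (-t) := by
      rw [← hYY, Real.exp_neg]
      have := Real.exp_pos t
      field_simp
    rw [h3] at h2
    exact h2
  have h4 := hfe x
  have h5 := hfe 0
  rw [neg_zero] at h5
  apply mul_left_cancel₀ hG0
  have e1 : G * (((syP (an χ f) Y 0 x : ℝ) : ℂ) +
      χ (-(N : ZMod q)) * ((syP (an χ f) Y 0 (-x) : ℝ) : ℂ)) =
      G * ((syP (an χ f) Y 0 x : ℝ) : ℂ) +
      χ (-(N : ZMod q)) * (G * ((syP (an χ f) Y 0 (-x) : ℝ) : ℂ)) := by ring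
  have e2 : G * ((1 + χ (-(N : ZMod q))) * ((syP (an χ f) Y 0 0 : ℝ) : ℂ)) =
      G * ((syP (an χ f) Y 0 0 : ℝ) : ℂ) +
      χ (-(N : ZMod q)) * (G * ((syP (an χ f) Y 0 0 : ℝ) : ℂ)) := by ring
  rw [e1, e2, key, key, key]
  have e3 : 2 * (Real.pi : ℂ) * syA χ f (1 / Y * Real.exp x) +
      χ (-(N : ZMod q)) * (2 * Real.pi * syA χ f (1 / Y * Real.exp (-x))) =
      2 * Real.pi * (syA χ f (1 / Y * Real.exp x) +
        χ (-(N : ZMod q)) * syA χ f (1 / Y * Real.exp (-x))) := by ring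
  have e4 : 2 * (Real.pi : ℂ) * syA χ f (1 / Y * Real.exp 0) +
      χ (-(N : ZMod q)) * (2 * Real.pi * syA χ f (1 / Y * Real.exp 0)) =
      2 * Real.pi * (syA χ f (1 / Y * Real.exp 0) +
        χ (-(N : ZMod q)) * syA χ f (1 / Y * Real.exp 0)) := by ring
  rw [e3, e4, h4, h5]

/-- **the symmetry** -/
theorem sym_eq {N : ℕ} [Fact N.Prime] {f : S2 N} (hf : IsNew f) (h1 : co f N = 1)
    {χ : DirichletCharacter ℂ q} (hχ : PQ χ) (hq : q < N) :
    (∀ i : ℕ, Summable (fun n : ℕ => an χ f n * V i (n / Yy q N)) ∧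
      Summable (fun n : ℕ => an χ f n * wi i (mN q N) n)) ∧
    (χ (-(N : ZMod q)) = 1 →
      ∑' n : ℕ, an χ f n * V 0 (n / Yy q N) = ∑' n : ℕ, an χ f n * wi 0 (mN q N) n ∧
      ∑' n : ℕ, an χ f n * V 2 (n / Yy q N) = ∑' n : ℕ, an χ f n * wi 2 (mN q N) n -
        cv * Real.log (mN q N) ^ 2 * ∑' n : ℕ, an χ f n * wi 0 (mN q N) n) ∧
    (χ (-(N : ZMod q)) = -1 →
      ∑' n : ℕ, an χ f n * V 1 (n / Yy q N) = ∑' n : ℕ, an χ f n * wi 1 (mN q N) n) := by
  have hNp : 0 < N := (Fact.out : N.Prime).pos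
  have hN : (0 : ℝ) < N := by exact_mod_cast hNp
  have hqp : 0 < q := Nat.pos_of_ne_zero (NeZero.ne q)
  have hq0 : (0 : ℝ) < q := by exact_mod_cast hqp
  have hsN : 0 < Real.sqrt N := Real.sqrt_pos.2 hN
  obtain ⟨C, hC0, hC⟩ := AFE_bound hf
  have ha0 : an χ f 0 = 0 := by
    unfold an
    simp
  have ha : ∀ n, |an χ f n| ≤ C := by
    intro n
    unfold an
    rw [abs_mul]
    have h2 : |(χ (n : ZMod q)).re| ≤ 1 :=
      (Complex.abs_re_le_norm _).trans (Pool.Agent.GL2.tw_norm_chi_le χ _)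
    calc _ ≤ 1 * C := mul_le_mul h2 (hC n) (abs_nonneg _) zero_le_one
      _ = C := one_mul C
  have hm1 : 1 ≤ mN q N := by
    unfold mN
    exact Nat.one_le_iff_ne_zero.2 (by positivity)
  have hY : Yy q N = Real.sqrt (mN q N) := by
    unfold Yy mN
    push_cast
    rw [Real.sqrt_mul hN.le, Real.sqrt_sq hq0.le]
    ring
  have hY0 : 0 < Yy q N := by unfold Yy; positivity
  have hP : ∀ i : ℕ, ∑' n : ℕ, an χ f n * V i (n / Yy q N) = syP (an χ f) (Yy q N) i 0 := by
    intro i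
    unfold syP
    refine tsum_congr fun n => ?_
    rw [Real.exp_zero, mul_one]
  have hz := sy_zero hf h1 hχ hq
  refine ⟨fun i => ⟨?_, (sy_avg ha0 ha hm1 hY i).summable⟩, fun hs => ?_, fun hs => ?_⟩
  · have := sy_summ ha0 ha hY0 i 0
    simpa only [Real.exp_zero, mul_one] using this
  · have h0 : ∀ x, syP (an χ f) (Yy q N) 0 x + syP (an χ f) (Yy q N) 0 (-x) =
        2 * syP (an χ f) (Yy q N) 0 0 := by
      intro x
      have h2 := hz x
      rw [hs, one_mul] at h2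
      have h3 : (1 : ℂ) + 1 = ((2 : ℝ) : ℂ) := by norm_num
      rw [h3] at h2
      exact_mod_cast h2
    have e0 := sy_avg2 ha0 ha hm1 hY 0 (c := syP (an χ f) (Yy q N) 0 0) (d := 0)
      (fun x => by rw [h0 x]; ring)
    have e2 := sy_avg2 ha0 ha hm1 hY 2 (c := syP (an χ f) (Yy q N) 2 0)
      (d := syP (an χ f) (Yy q N) 0 0) (fun x => sy_two ha0 ha hY0 h0 x)
    rw [mul_zero, add_zero] at e0
    refine ⟨by rw [hP, e0], ?_⟩
    rw [hP, e2, e0]
    unfold cv
    ring
  · have h0 : ∀ x, syP (an χ f) (Yy q N) 0 x = syP (an χ f) (Yy q N) 0 (-x) := by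
      intro x
      have h2 := hz x
      rw [hs] at h2
      have h3 : ((syP (an χ f) (Yy q N) 0 x : ℝ) : ℂ) = ((syP (an χ f) (Yy q N) 0 (-x) : ℝ) : ℂ) := by
        linear_combination h2
      exact_mod_cast h3
    have e1 := sy_avg2 ha0 ha hm1 hY 1 (c := syP (an χ f) (Yy q N) 1 0) (d := 0)
      (fun x => by rw [sy_one ha0 ha hY0 h0 x]; ring)
    rw [mul_zero, add_zero] at e1
    rw [hP, e1]

end Pool.Agent.TU
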